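import Pool.Agent.H902R2.HO.Stubs2

/-!
ROOM HO, task BIG (helper782): positivity for large `γ'`.
-/

namespace H902HO

namespace BIG

/-- the part of `PP` that does not depend on `γ` -/
def PA {R V : Type*} [Add R] [Sub R] [Mul R] [Add V] [Neg V] [SMul R V] (O : Ops R V) (e l : R)
    (z a b : V × V) : R :=
  two (F2 O e l b b z (Wz O e l z a) (Wz O e l z a) (W1 O e l z (Wz O e l z a) a) +
      F2 O e l a a z (Wz O e l z b) (Wz O e l z b) (W1 O e l z (Wz O e l z b) b) -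
      (F2 O e l a b z (Wz O e l z b) (Wz O e l z a) (W1 O e l z (Wz O e l z a) b) +
      F2 O e l a b z (Wz O e l z a) (Wz O e l z b) (W1 O e l z (Wz O e l z b) a))) +
    (pr O (J O z (grad O e l a b z)) (K O e l z (J O z (grad O e l a b z))) -
      pr O (J O z (grad O e l a a z)) (K O e l z (J O z (grad O e l b b z))))

/-- the coefficient of `γ` -/
def PU {R V : Type*} [Add R] [Sub R] [Mul R] [Add V] [Neg V] [SMul R V] (O : Ops R V) (e l : R)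
    (z a b : V × V) : V × V := W1 O e l z (Wz O e l z a) b

theorem PP_eq {R V : Type*} [Add R] [Sub R] [Mul R] [Add V] [Neg V] [SMul R V] (O : Ops R V)
    (e l : R) (z a b γ : V × V) :
    PP O e l z a b γ = PA O e l z a b +
      three (pr O (J O z γ) (K O e l z (J O z γ)) -
        two (pr O γ (PU O e l z a b) - pr O γ (PU O e l z b a))) := rfl

/-- the direction of `γ'` -/
def gd (y2 y3 : T ℝ) (g1 g2 g3 g4 : ℝ) : T ℝ × T ℝ :=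
  (g1 • (⟨0, 1, 0⟩ : T ℝ) + -(g2 • (⟨0, 0, 1⟩ : T ℝ)), g3 • y2 + -(g4 • y3))

/-- the quadratic part -/
def qd (w q : Sym ℝ) (v : T ℝ) (e l : ℝ) (y1 y2 y3 : T ℝ) (g1 g2 g3 g4 : ℝ) : ℝ :=
  pr (ops w q v) (J (ops w q v) (⟨1, 0, 0⟩, y1) (gd y2 y3 g1 g2 g3 g4))
    (K (ops w q v) e l (⟨1, 0, 0⟩, y1) (J (ops w q v) (⟨1, 0, 0⟩, y1) (gd y2 y3 g1 g2 g3 g4)))

theorem quad (w q : Sym ℝ) (v : T ℝ) (e l : ℝ) (y1 y2 y3 : T ℝ) (ca sa cb sb : ℝ)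
    (g1 g2 g3 g4 t : ℝ) :
    PPn 0 1 w q v e l y1 y2 y3 ca sa cb sb (t * g1) (t * g2) (t * g3) (t * g4) =
      PPn 0 1 w q v e l y1 y2 y3 ca sa cb sb (0 * g1) (0 * g2) (0 * g3) (0 * g4) +
      t * ((PPn 0 1 w q v e l y1 y2 y3 ca sa cb sb g1 g2 g3 g4 -
        PPn 0 1 w q v e l y1 y2 y3 ca sa cb sb (-g1) (-g2) (-g3) (-g4)) / 2) +
      3 * t ^ 2 * qd w q v e l y1 y2 y3 g1 g2 g3 g4 := by
  unfold PPn
  simp only [PP_eq]
  generalize PA (ops w q v) e l ((⟨1, 0, 0⟩ : T ℝ), y1) (ca • (⟨0, 1, 0⟩ : T ℝ), sa • y3)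
    (sb • (⟨0, 0, 1⟩ : T ℝ), cb • y2) = A
  generalize PU (ops w q v) e l ((⟨1, 0, 0⟩ : T ℝ), y1) (ca • (⟨0, 1, 0⟩ : T ℝ), sa • y3)
    (sb • (⟨0, 0, 1⟩ : T ℝ), cb • y2) = U
  generalize PU (ops w q v) e l ((⟨1, 0, 0⟩ : T ℝ), y1) (sb • (⟨0, 0, 1⟩ : T ℝ), cb • y2)
    (ca • (⟨0, 1, 0⟩ : T ℝ), sa • y3) = U'
  generalize T.cr (w.ap ⟨0, 0, 1⟩) ⟨0, 1, 0⟩ = c1
  generalize -T.cr (w.ap y3) y2 = c2
  simp only [qd, gd, pr, J, K, ops, T.dot, T.cr, Sym.ap, two, three, T.add_x, T.add_y, T.add_z,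
    T.neg_x, T.neg_y, T.neg_z, T.smul_x, T.smul_y, T.smul_z]
  ring

/-- the vector with given coordinates in a frame -/
def lift (x1 x2 x3 a : T ℝ) : T ℝ := a.x • x1 + a.y • x2 + a.z • x3

theorem dot_frS (w : Sym ℝ) (x1 x2 x3 a b : T ℝ) :
    T.dot a ((frS w x1 x2 x3).ap b) = T.dot (lift x1 x2 x3 a) (w.ap (lift x1 x2 x3 b)) := by
  simp only [frS, lift, T.dot, Sym.ap, T.add_x, T.add_y, T.add_z, T.smul_x, T.smul_y, T.smul_z]
  ring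

theorem dot_frV (v x1 x2 x3 a : T ℝ) :
    T.dot a (frV v x1 x2 x3) = T.dot v (lift x1 x2 x3 a) := by
  simp only [frV, lift, T.dot, T.add_x, T.add_y, T.add_z, T.smul_x, T.smul_y, T.smul_z]
  ring

theorem frame_rel {x1 x2 x3 : T ℝ} (h : IsFrame x1 x2 x3) :
    T.dot x3 x3 = 1 ∧ T.dot x1 x3 = 0 ∧ T.dot x2 x3 = 0 := by
  have h1 := h.d11
  have h2 := h.d22
  have h3 := h.d12
  rw [← h.cr]
  refine ⟨?_, ?_, ?_⟩
  · have : T.dot (T.cr x1 x2) (T.cr x1 x2) = T.dot x1 x1 * T.dot x2 x2 - T.dot x1 x2 ^ 2 := by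
      simp only [T.dot, T.cr]
      ring
    rw [this, h1, h2, h3]
    norm_num
  · simp only [T.dot, T.cr]
    ring
  · simp only [T.dot, T.cr]
    ring

theorem lift_norm {x1 x2 x3 : T ℝ} (h : IsFrame x1 x2 x3) (a : T ℝ) :
    T.dot (lift x1 x2 x3 a) (lift x1 x2 x3 a) = T.dot a a := by
  obtain ⟨h33, h13, h23⟩ := frame_rel h
  have : T.dot (lift x1 x2 x3 a) (lift x1 x2 x3 a) = a.x ^ 2 * T.dot x1 x1 +
      a.y ^ 2 * T.dot x2 x2 + a.z ^ 2 * T.dot x3 x3 + 2 * a.x * a.y * T.dot x1 x2 +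
      2 * a.x * a.z * T.dot x1 x3 + 2 * a.y * a.z * T.dot x2 x3 := by
    simp only [lift, T.dot, T.add_x, T.add_y, T.add_z, T.smul_x, T.smul_y, T.smul_z]
    ring
  rw [this, h.d11, h.d22, h.d12, h33, h13, h23]
  simp only [T.dot]
  ring

theorem cr_norm {y1 y2 y3 : T ℝ} (h : IsFrame y1 y2 y3) (g3 g4 : ℝ) :
    T.dot (T.cr y1 (g3 • y2 + -(g4 • y3))) (T.cr y1 (g3 • y2 + -(g4 • y3))) =
      g3 ^ 2 + g4 ^ 2 := by
  obtain ⟨h33, h13, h23⟩ := frame_rel h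
  have : T.dot (T.cr y1 (g3 • y2 + -(g4 • y3))) (T.cr y1 (g3 • y2 + -(g4 • y3))) =
      T.dot y1 y1 * (g3 ^ 2 * T.dot y2 y2 + g4 ^ 2 * T.dot y3 y3 - 2 * g3 * g4 * T.dot y2 y3) -
        (g3 * T.dot y1 y2 - g4 * T.dot y1 y3) ^ 2 := by
    simp only [T.dot, T.cr, T.add_x, T.add_y, T.add_z, T.neg_x, T.neg_y, T.neg_z, T.smul_x,
      T.smul_y, T.smul_z]
    ring
  rw [this, h.d11, h.d22, h.d12, h33, h13, h23]
  ring

theorem pr_K (w q : Sym ℝ) (v : T ℝ) (e l : ℝ) (y1 u1 u2 : T ℝ) :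
    pr (ops w q v) (u1, u2) (K (ops w q v) e l ((⟨1, 0, 0⟩ : T ℝ), y1) (u1, u2)) =
      T.dot u1 u1 + T.dot u2 u2 + T.dot (u1 + u2) (w.ap (u1 + u2)) + l * T.dot u1 (q.ap u1) +
        2 * e * u2.x * T.dot u1 v := by
  simp only [pr, K, ops, T.dot, Sym.ap, T.add_x, T.add_y, T.add_z, T.smul_x, T.smul_y, T.smul_z]
  ring

theorem qd_lower {μ e l : ℝ} {x1 x2 x3 y1 y2 y3 : T ℝ} (hμ0 : 0 ≤ μ) (hμ : μ ≤ 1) (he0 : 0 ≤ e)
    (he : e ≤ 1 / 8) (hl0 : 0 ≤ l) (hl : l ≤ 1 / 8) (hx : IsFrame x1 x2 x3)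
    (hy : IsFrame y1 y2 y3) (g1 g2 g3 g4 : ℝ) :
    1 / 2 * (g1 ^ 2 + g2 ^ 2 + g3 ^ 2 + g4 ^ 2) ≤
      qd (frS (W0 μ) x1 x2 x3) (frS Q0 x1 x2 x3) (frV v0 x1 x2 x3) e l y1 y2 y3 g1 g2 g3 g4 := by
  have hJ : J (ops (frS (W0 μ) x1 x2 x3) (frS Q0 x1 x2 x3) (frV v0 x1 x2 x3))
      ((⟨1, 0, 0⟩ : T ℝ), y1) (gd y2 y3 g1 g2 g3 g4) =
      ((⟨0, g2, g1⟩ : T ℝ), T.cr y1 (g3 • y2 + -(g4 • y3))) := by
    refine Prod.ext ?_ rfl
    ext <;> simp [J, gd, ops, T.cr]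
  unfold qd
  rw [hJ, pr_K, dot_frS, dot_frS, dot_frV, cr_norm hy]
  set u1 : T ℝ := ⟨0, g2, g1⟩ with hu1
  set u2 : T ℝ := T.cr y1 (g3 • y2 + -(g4 • y3)) with hu2
  have hn1 := lift_norm hx u1
  have h11 : T.dot u1 u1 = g1 ^ 2 + g2 ^ 2 := by
    simp only [hu1, T.dot]
    ring
  have h22 : T.dot u2 u2 = g3 ^ 2 + g4 ^ 2 := cr_norm hy g3 g4
  rw [h11] at hn1 ⊢
  generalize lift x1 x2 x3 (u1 + u2) = S
  generalize lift x1 x2 x3 u1 = U at hn1 ⊢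
  have hW : 0 ≤ T.dot S ((W0 μ).ap S) := by
    have : T.dot S ((W0 μ).ap S) = (1 - μ) * (S.x ^ 2 + S.z ^ 2) + S.y ^ 2 +
        μ * (S.x + S.z) ^ 2 := by
      simp only [T.dot, W0, Sym.ap]
      ring
    rw [this]
    have h1 : 0 ≤ (1 - μ) * (S.x ^ 2 + S.z ^ 2) := mul_nonneg (by linarith) (by positivity)
    have h2 : 0 ≤ μ * (S.x + S.z) ^ 2 := by positivity
    positivity
  have hQ : -(g1 ^ 2 + g2 ^ 2) ≤ T.dot U (Q0.ap U) := by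
    rw [← hn1]
    simp only [T.dot, Q0, Sym.ap]
    nlinarith [sq_nonneg U.x, sq_nonneg U.y]
  have hv : T.dot v0 U = U.x + U.y := by
    simp only [T.dot, v0]
    ring
  rw [hv]
  have hu2x : u2.x ^ 2 ≤ g3 ^ 2 + g4 ^ 2 := by
    rw [← h22]
    simp only [T.dot]
    nlinarith [sq_nonneg u2.y, sq_nonneg u2.z]
  have hUxy : (U.x + U.y) ^ 2 ≤ 2 * (g1 ^ 2 + g2 ^ 2) := by
    rw [← hn1]
    simp only [T.dot]
    nlinarith [sq_nonneg (U.x - U.y), sq_nonneg U.z]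
  have hE : -(e * (g3 ^ 2 + g4 ^ 2 + 2 * (g1 ^ 2 + g2 ^ 2))) ≤ 2 * e * u2.x * (U.x + U.y) := by
    have h1 : -(u2.x ^ 2 + (U.x + U.y) ^ 2) ≤ 2 * (u2.x * (U.x + U.y)) := by
      nlinarith [sq_nonneg (u2.x + (U.x + U.y))]
    nlinarith
  have hL : -(l * (g1 ^ 2 + g2 ^ 2)) ≤ l * T.dot U (Q0.ap U) := by nlinarith
  have p1 : 0 ≤ g1 ^ 2 + g2 ^ 2 := by positivity
  have p2 : 0 ≤ g3 ^ 2 + g4 ^ 2 := by positivity
  nlinarith [mul_le_mul_of_nonneg_right hl p1, mul_le_mul_of_nonneg_right he p1,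
    mul_le_mul_of_nonneg_right he p2]

/-- rescaling the last four coordinates -/
noncomputable def rs (d : DD) (s : ℝ) : DD := fun i => if i.val < 16 then d i else s * d i

theorem FD_rs (μ ε l : ℝ) (d : DD) (s : ℝ) :
    FD μ ε l (rs d s) = FP μ ε l (dx1 d) (dx2 d) (dx3 d) (dy1 d) (dy2 d) (dy3 d) (d 12) (d 13)
      (d 14) (d 15) (s * d 16) (s * d 17) (s * d 18) (s * d 19) := by
  rfl

end BIG

open BIG in
/-- BIG: positivity for large `γ'` -/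
theorem BIG_of (hc : St_CONT1) : St_BIG := by
  -- the compact set of parameters
  set S : Set (ℝ × ℝ × ℝ × DD) := Set.Icc 0 1 ×ˢ Set.Icc 0 1 ×ˢ Set.Icc 0 1 ×ˢ
    (Set.univ.pi fun _ => Set.Icc (-1) 1) with hS
  have hSc : IsCompact S :=
    isCompact_Icc.prod (isCompact_Icc.prod (isCompact_Icc.prod
      (isCompact_univ_pi fun _ => isCompact_Icc)))
  obtain ⟨M, hM⟩ := hSc.exists_bound_of_continuousOn (Continuous.continuousOn hc)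
  have hM' : ∀ (μ ε l : ℝ) (d : DD), 0 ≤ μ → μ ≤ 1 → 0 ≤ ε → ε ≤ 1 → 0 ≤ l → l ≤ 1 →
      (∀ i, -1 ≤ d i ∧ d i ≤ 1) → |FD μ ε l d| ≤ max M 1 := by
    intro μ ε l d h1 h2 h3 h4 h5 h6 h7
    have := hM (μ, ε, l, d) ⟨⟨h1, h2⟩, ⟨h3, h4⟩, ⟨h5, h6⟩, fun i _ => h7 i⟩
    exact le_trans this (le_max_left _ _)
  generalize max M 1 = N at hM'
  have hN : 0 ≤ N := by
    have := hM' 0 0 0 (fun _ => 0) le_rfl zero_le_one le_rfl zero_le_one le_rfl zero_le_one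
      (fun _ => ⟨by norm_num, by norm_num⟩)
    exact le_trans (abs_nonneg _) this
  refine ⟨(N + 2) ^ 2, 1 / 8, by positivity, by norm_num, ?_⟩
  intro μ ε l d hμ0 hμ hε0 hε hl0 hl hd hG
  have hg0 : 0 < gg d := lt_of_lt_of_le (by positivity) hG
  set r := Real.sqrt (gg d) with hr
  have hr2 : r ^ 2 = gg d := Real.sq_sqrt hg0.le
  have hr0 : 0 < r := Real.sqrt_pos.2 hg0
  have hrN : N + 2 ≤ r := by
    rw [hr]
    exact Real.le_sqrt_of_sq_le hG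
  -- the coordinates
  have hcoord : ∀ i : Fin 20, i.val < 16 → -1 ≤ d i ∧ d i ≤ 1 := by
    have a1 := hd.fx.d11
    have a2 := hd.fx.d22
    have a3 := hd.fy.d11
    have a4 := hd.fy.d22
    have a5 := hd.ha
    have a6 := hd.hb
    simp only [T.dot, dx1, dx2, dy1, dy2] at a1 a2 a3 a4
    intro i hi
    have key : d i ^ 2 ≤ 1 := by
      fin_cases i
      · show d 0 ^ 2 ≤ 1
        linarith [mul_self_nonneg (d 1), mul_self_nonneg (d 2)]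
      · show d 1 ^ 2 ≤ 1
        linarith [mul_self_nonneg (d 0), mul_self_nonneg (d 2)]
      · show d 2 ^ 2 ≤ 1
        linarith [mul_self_nonneg (d 0), mul_self_nonneg (d 1)]
      · show d 3 ^ 2 ≤ 1
        linarith [mul_self_nonneg (d 4), mul_self_nonneg (d 5)]
      · show d 4 ^ 2 ≤ 1
        linarith [mul_self_nonneg (d 3), mul_self_nonneg (d 5)]
      · show d 5 ^ 2 ≤ 1
        linarith [mul_self_nonneg (d 3), mul_self_nonneg (d 4)]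
      · show d 6 ^ 2 ≤ 1
        linarith [mul_self_nonneg (d 7), mul_self_nonneg (d 8)]
      · show d 7 ^ 2 ≤ 1
        linarith [mul_self_nonneg (d 6), mul_self_nonneg (d 8)]
      · show d 8 ^ 2 ≤ 1
        linarith [mul_self_nonneg (d 6), mul_self_nonneg (d 7)]
      · show d 9 ^ 2 ≤ 1
        linarith [mul_self_nonneg (d 10), mul_self_nonneg (d 11)]
      · show d 10 ^ 2 ≤ 1
        linarith [mul_self_nonneg (d 9), mul_self_nonneg (d 11)]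
      · show d 11 ^ 2 ≤ 1
        linarith [mul_self_nonneg (d 9), mul_self_nonneg (d 10)]
      · show d 12 ^ 2 ≤ 1
        linarith [mul_self_nonneg (d 13)]
      · show d 13 ^ 2 ≤ 1
        linarith [mul_self_nonneg (d 12)]
      · show d 14 ^ 2 ≤ 1
        linarith [mul_self_nonneg (d 15)]
      · show d 15 ^ 2 ≤ 1
        linarith [mul_self_nonneg (d 14)]
      · exact absurd hi (by decide)
      · exact absurd hi (by decide)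
      · exact absurd hi (by decide)
      · exact absurd hi (by decide)
    exact abs_le.1 ((sq_le_one_iff_abs_le_one _).1 key)
  have hgi : ∀ i : Fin 20, ¬ i.val < 16 → d i ^ 2 ≤ r ^ 2 := by
    rw [hr2, gg]
    intro i hi
    fin_cases i
    · exact absurd (by decide) hi
    · exact absurd (by decide) hi
    · exact absurd (by decide) hi
    · exact absurd (by decide) hi
    · exact absurd (by decide) hi
    · exact absurd (by decide) hi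
    · exact absurd (by decide) hi
    · exact absurd (by decide) hi
    · exact absurd (by decide) hi
    · exact absurd (by decide) hi
    · exact absurd (by decide) hi
    · exact absurd (by decide) hi
    · exact absurd (by decide) hi
    · exact absurd (by decide) hi
    · exact absurd (by decide) hi
    · exact absurd (by decide) hi
    · show d 16 ^ 2 ≤ _
      linarith [sq_nonneg (d 17), sq_nonneg (d 18), sq_nonneg (d 19)]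
    · show d 17 ^ 2 ≤ _
      linarith [sq_nonneg (d 16), sq_nonneg (d 18), sq_nonneg (d 19)]
    · show d 18 ^ 2 ≤ _
      linarith [sq_nonneg (d 16), sq_nonneg (d 17), sq_nonneg (d 19)]
    · show d 19 ^ 2 ≤ _
      linarith [sq_nonneg (d 16), sq_nonneg (d 17), sq_nonneg (d 18)]
  have hrs : ∀ s : ℝ, s ^ 2 * r ^ 2 ≤ 1 → ∀ i, -1 ≤ rs d s i ∧ rs d s i ≤ 1 := by
    intro s hs i
    unfold rs
    split_ifs with hi
    · exact hcoord i hi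
    · have h1 : (s * d i) ^ 2 ≤ 1 := by
        have := hgi i hi
        calc (s * d i) ^ 2 = s ^ 2 * d i ^ 2 := by ring
          _ ≤ s ^ 2 * r ^ 2 := mul_le_mul_of_nonneg_left this (sq_nonneg s)
          _ ≤ 1 := hs
      exact abs_le.1 ((sq_le_one_iff_abs_le_one _).1 h1)
  have hb : ∀ s : ℝ, s ^ 2 * r ^ 2 ≤ 1 → |FD μ ε l (rs d s)| ≤ N := fun s hs =>
    hM' μ ε l _ hμ0 (by linarith) hε0 (by linarith) hl0 (by linarith) (hrs s hs)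
  have b0 := hb 0 (by norm_num)
  have hrr : (r⁻¹) ^ 2 * r ^ 2 = 1 := by
    field_simp
  have b1 := hb r⁻¹ hrr.le
  have b2 := hb (-r⁻¹) (by rw [neg_sq]; exact hrr.le)
  have hq := quad (frS (W0 μ) (dx1 d) (dx2 d) (dx3 d)) (frS Q0 (dx1 d) (dx2 d) (dx3 d))
    (frV v0 (dx1 d) (dx2 d) (dx3 d)) ε l (dy1 d) (dy2 d) (dy3 d) (d 12) (d 13) (d 14) (d 15)
    (r⁻¹ * d 16) (r⁻¹ * d 17) (r⁻¹ * d 18) (r⁻¹ * d 19) r
  have hql := qd_lower (e := ε) (l := l) hμ0 (by linarith : μ ≤ 1) hε0 hε hl0 hl hd.fx hd.fy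
    (r⁻¹ * d 16) (r⁻¹ * d 17) (r⁻¹ * d 18) (r⁻¹ * d 19)
  have hsum : (r⁻¹ * d 16) ^ 2 + (r⁻¹ * d 17) ^ 2 + (r⁻¹ * d 18) ^ 2 + (r⁻¹ * d 19) ^ 2 = 1 := by
    have h1 : (r⁻¹ * d 16) ^ 2 + (r⁻¹ * d 17) ^ 2 + (r⁻¹ * d 18) ^ 2 + (r⁻¹ * d 19) ^ 2 =
        (r⁻¹) ^ 2 * gg d := by
      unfold gg
      ring
    rw [h1, ← hr2, hrr]
  rw [hsum] at hql
  have e1 : ∀ x : ℝ, r * (r⁻¹ * x) = x := fun x => by field_simp
  have e2 : ∀ x : ℝ, 0 * (r⁻¹ * x) = 0 * x := fun x => by ring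
  have e3 : ∀ x : ℝ, -(r⁻¹ * x) = -r⁻¹ * x := fun x => by ring
  rw [e1, e1, e1, e1, e2, e2, e2, e2, e3, e3, e3, e3] at hq
  rw [FD_rs] at b0 b1 b2
  unfold FP at b0 b1 b2
  have hF : FD μ ε l d = PPn 0 1 (frS (W0 μ) (dx1 d) (dx2 d) (dx3 d))
    (frS Q0 (dx1 d) (dx2 d) (dx3 d)) (frV v0 (dx1 d) (dx2 d) (dx3 d)) ε l (dy1 d) (dy2 d) (dy3 d)
    (d 12) (d 13) (d 14) (d 15) (d 16) (d 17) (d 18) (d 19) := rfl
  rw [hF, hq]
  generalize PPn 0 1 (frS (W0 μ) (dx1 d) (dx2 d) (dx3 d))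
    (frS Q0 (dx1 d) (dx2 d) (dx3 d)) (frV v0 (dx1 d) (dx2 d) (dx3 d)) ε l (dy1 d) (dy2 d) (dy3 d)
    (d 12) (d 13) (d 14) (d 15) (0 * d 16) (0 * d 17) (0 * d 18) (0 * d 19) = F0 at b0 ⊢
  generalize PPn 0 1 (frS (W0 μ) (dx1 d) (dx2 d) (dx3 d))
    (frS Q0 (dx1 d) (dx2 d) (dx3 d)) (frV v0 (dx1 d) (dx2 d) (dx3 d)) ε l (dy1 d) (dy2 d) (dy3 d)
    (d 12) (d 13) (d 14) (d 15) (r⁻¹ * d 16) (r⁻¹ * d 17) (r⁻¹ * d 18) (r⁻¹ * d 19) = F1 at b1 ⊢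
  generalize PPn 0 1 (frS (W0 μ) (dx1 d) (dx2 d) (dx3 d))
    (frS Q0 (dx1 d) (dx2 d) (dx3 d)) (frV v0 (dx1 d) (dx2 d) (dx3 d)) ε l (dy1 d) (dy2 d) (dy3 d)
    (d 12) (d 13) (d 14) (d 15) (-r⁻¹ * d 16) (-r⁻¹ * d 17) (-r⁻¹ * d 18) (-r⁻¹ * d 19) = F2
    at b2 ⊢
  generalize qd (frS (W0 μ) (dx1 d) (dx2 d) (dx3 d)) (frS Q0 (dx1 d) (dx2 d) (dx3 d))
    (frV v0 (dx1 d) (dx2 d) (dx3 d)) ε l (dy1 d) (dy2 d) (dy3 d) (r⁻¹ * d 16) (r⁻¹ * d 17)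
    (r⁻¹ * d 18) (r⁻¹ * d 19) = q at hql ⊢
  rw [abs_le] at b0 b1 b2
  have h1 : -N ≤ (F1 - F2) / 2 := by linarith [b1.1, b2.2]
  have h2 : -(r * N) ≤ r * ((F1 - F2) / 2) := by nlinarith
  have h3 : 3 / 2 * r ^ 2 ≤ 3 * r ^ 2 * q := by nlinarith [sq_nonneg r]
  nlinarith [b0.1]

end H902HO
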